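import Pool.Agent.helper89.PU.Spec1

/-!
# Project PU (MP_2e0e07_nt), row BPW: powers near the scalars, large `p`
-/

set_option autoImplicit false

namespace Pool.Agent.PV

open Matrix Polynomial Pool.Agent.GO Pool.Agent.AR Pool.Agent.RG Pool.Agent.HZ Pool.Agent.DS
  Pool.Agent.AX Pool.Agent.UM Pool.Agent.PU MeasureTheory NumberField

theorem BPW_pow (q v : ℕ) : v * q + 1 ≤ (q + 1) ^ v := by
  induction v with
  | zero => simp
  | succ v ih =>
    rw [pow_succ]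
    have h1 : (v * q + 1) * (q + 1) ≤ (q + 1) ^ v * (q + 1) := Nat.mul_le_mul_right _ ih
    refine le_trans ?_ h1
    have h2 : (v * q + 1) * (q + 1) = (v + 1) * q + 1 + v * q * q := by ring
    rw [h2]
    exact Nat.le_add_right _ _

theorem BPW_num (p d v j : ℕ) (hd : d + 1 < p) (hv : 1 ≤ v) (hj : p ^ v ≤ j) :
    v * d < j - 1 := by
  obtain ⟨q, rfl⟩ : ∃ q, p = q + 1 := ⟨p - 1, by omega⟩
  have h1 := BPW_pow q v
  have h2 : v * d < v * q := Nat.mul_lt_mul_of_pos_left (by omega) (by omega)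
  omega

theorem BPW_norm (p : ℕ) [Fact p.Prime] (F : Type) [NormedField F] [NormedAlgebra ℚ_[p] F]
    (j : ℕ) (hj : j ≠ 0) : ‖(j : F)‖ = ((p : ℝ)⁻¹) ^ padicValNat p j := by
  have h2 : (j : F) = algebraMap ℚ_[p] F (j : ℚ_[p]) := by rw [map_natCast]
  have h3 : (j : ℚ_[p]) ≠ 0 := by exact_mod_cast hj
  rw [h2, norm_algebraMap', Padic.norm_eq_zpow_neg_valuation h3, Padic.valuation_natCast,
    _root_.zpow_neg, _root_.zpow_natCast, inv_pow]

theorem BPW_lt (p : ℕ) [Fact p.Prime] (F : Type) [NormedField F] [NormedAlgebra ℚ_[p] F]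
    (d : ℕ) (hd : d + 1 < p) (ν : ℝ) (h0 : 0 ≤ ν) (h1 : ν < 1) (h2 : ν ^ d ≤ (p : ℝ)⁻¹) (j : ℕ)
    (hj : 2 ≤ j) : ν ^ (j - 1) < ‖(j : F)‖ := by
  have hp : p.Prime := Fact.out
  rw [BPW_norm p F j (by omega)]
  rcases Nat.eq_zero_or_pos (padicValNat p j) with hv | hv
  · rw [hv, pow_zero]
    exact pow_lt_one₀ h0 h1 (by omega)
  · generalize hw : padicValNat p j = v at hv
    have h3 : p ^ v ≤ j := by
      rw [← hw]
      exact Nat.le_of_dvd (by omega) pow_padicValNat_dvd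
    have h4 := BPW_num p d v j hd hv h3
    have hpos : (0 : ℝ) < (p : ℝ)⁻¹ := inv_pos.2 (by exact_mod_cast hp.pos)
    have hlt : (p : ℝ)⁻¹ < 1 := inv_lt_one_of_one_lt₀ (by exact_mod_cast hp.one_lt)
    have hd0 : d ≠ 0 := by
      rintro rfl
      rw [pow_zero] at h2
      exact absurd h2 (not_le.2 hlt)
    refine lt_of_pow_lt_pow_left₀ d (by positivity) ?_
    calc (ν ^ (j - 1)) ^ d = (ν ^ d) ^ (j - 1) := by rw [← pow_mul, ← pow_mul, mul_comm]
      _ ≤ ((p : ℝ)⁻¹) ^ (j - 1) := pow_le_pow_left₀ (by positivity) h2 _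
      _ < ((p : ℝ)⁻¹) ^ (v * d) := pow_lt_pow_right_of_lt_one₀ hpos hlt h4
      _ = (((p : ℝ)⁻¹) ^ v) ^ d := pow_mul _ _ _

theorem BPW (hPWR : PWR_stmt) (hDSC : DSC_stmt) : BPW_stmt := by
  intro p _ F _ _ _ d hfin hd M hint hdet hnu k
  have : IsUltrametricDist F := ultra p F
  have h1 : nu M ^ d ≤ (p : ℝ)⁻¹ := by
    rcases nu_cases M with h | h | h
    · rw [h] at hnu ⊢
      exact hDSC p F d hfin _ hnu
    · rw [h] at hnu ⊢
      exact hDSC p F d hfin _ hnu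
    · rw [h] at hnu ⊢
      exact hDSC p F d hfin _ hnu
  exact hPWR M hint hdet hnu (fun j hj => BPW_lt p F d hd (nu M) (nu_nonneg M) hnu h1 j hj) k

end Pool.Agent.PV
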