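import Pool.Agent.helper16.PU.Spec2
import Pool.Agent.helper75.UM.NRM

/-!
# Project PU (MP_2e0e07_nt), row NRB: the norm of the value of a polynomial relation is bounded
-/

set_option autoImplicit false

namespace Pool.Agent.PU

open Matrix Polynomial Pool.Agent.GO Pool.Agent.AR Pool.Agent.RG Pool.Agent.HZ Pool.Agent.DS
  Pool.Agent.AX Pool.Agent.UM NumberField

theorem NRB_norm {E : Type} [Field E] [NumberField E] {x : 𝓞 E} {A : ℕ}
    (hA : ∀ φ : E →+* ℂ, ‖φ (x : E)‖ ≤ A) :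
    (Algebra.norm ℤ x).natAbs ≤ A ^ Module.finrank ℚ E := by
  have h4 : (((Algebra.norm ℤ x).natAbs : ℕ) : ℝ) ≤ (A : ℝ) ^ Module.finrank ℚ E := by
    have h5 : ((Algebra.norm ℤ x).natAbs : ℝ) = ‖∏ φ : E →ₐ[ℚ] ℂ, φ (x : E)‖ := by
      rw [← Algebra.norm_eq_prod_embeddings, ← Algebra.coe_norm_int]
      simp only [eq_ratCast, Rat.cast_intCast, Complex.norm_intCast, Nat.cast_natAbs,
        Int.cast_abs]
    rw [h5, norm_prod]
    calc ∏ φ : E →ₐ[ℚ] ℂ, ‖φ (x : E)‖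
        ≤ ∏ _φ : E →ₐ[ℚ] ℂ, (A : ℝ) :=
          Finset.prod_le_prod (fun _ _ => norm_nonneg _) fun φ _ => hA (φ : E →+* ℂ)
      _ = (A : ℝ) ^ Module.finrank ℚ E := by
          rw [Finset.prod_const, Finset.card_univ, AlgHom.card]
  exact_mod_cast h4

theorem NRB_val {E : Type} [Field E] [NumberField E] {r : ℕ} {n : Fin r → ℕ}
    {Φ : (MvPolynomial (Fin r × ℕ) (𝓞 E))[X]} {D H B : ℕ} (hD : HasWeight n Φ D)
    (hH : HasHeight Φ H) (hB : 1 ≤ B) {P : Fin r → (𝓞 E)[X]} {Q : (𝓞 E)[X]}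
    (hP : ∀ i, IsBounded (n i) B (P i)) (hQ : IsBounded 2 B Q) (φ : E →+* ℂ) :
    ‖φ ((relVal Φ P Q : 𝓞 E) : E)‖ ≤ ((H * (((∑ i, n i) + 2) * B) ^ D : ℕ) : ℝ) := by
  have hB' : (1 : ℝ) ≤ B := by exact_mod_cast hB
  have hM : (1 : ℝ) ≤ ((((∑ i, n i) + 2 : ℕ) : ℝ) * B) := by
    have : (1 : ℝ) ≤ (((∑ i, n i) + 2 : ℕ) : ℝ) := by exact_mod_cast (by omega)
    nlinarith
  have h1 := norm_val_le Φ hD (φ.comp (algebraMap (𝓞 E) E)) (fun k => (P k.1).coeff k.2)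
    (-Q.coeff 1) hM (by
      intro k
      obtain ⟨p1, p2, p3⟩ := hP k.1
      have h2 := norm_coeff_le (φ.comp (algebraMap (𝓞 E) E)) p1 hB' (p3 φ)
        (N := (∑ i, n i) + 2) (by
          rw [p2]
          exact (Finset.single_le_sum (fun _ _ => Nat.zero_le _) (Finset.mem_univ k.1)).trans
            (Nat.le_add_right _ _)) k.2
      rw [p2] at h2
      exact h2) (by
      obtain ⟨p1, p2, p3⟩ := hQ
      have h2 := norm_coeff_le (φ.comp (algebraMap (𝓞 E) E)) p1 hB' (p3 φ)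
        (N := (∑ i, n i) + 2) (by rw [p2]; omega) 1
      rw [p2, show 2 - 1 = 1 from rfl, pow_one] at h2
      rw [map_neg, norm_neg]
      exact h2)
  refine h1.trans ?_
  push_cast
  have h3 := hH φ
  refine mul_le_mul_of_nonneg_right ?_ (by positivity)
  exact h3

theorem NRB : NRB_stmt := by
  intro r n Φ
  obtain ⟨D, hD⟩ := exists_weight n Φ
  refine ⟨D, NRM_H Φ, hD, ?_⟩
  intro d E _ _ hd P Q B hB hP hQ
  have h1 := NRB_norm (E := E) (fun φ => NRB_val (NRM_weight n Φ hD) (NRM_height Φ) hB hP hQ φ)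
  have h1' : (Algebra.norm ℤ (val Φ P Q)).natAbs ≤
      (NRM_H Φ * (((∑ i, n i) + 2) * B) ^ D) ^ Module.finrank ℚ E := h1
  refine h1'.trans ?_
  generalize hX : NRM_H Φ * (((∑ i, n i) + 2) * B) ^ D = X at h1' ⊢
  rcases Nat.eq_zero_or_pos X with h0 | h0
  · rw [h0, zero_pow Module.finrank_pos.ne']
    exact Nat.zero_le _
  · exact Nat.pow_le_pow_right h0 hd

end Pool.Agent.PU
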